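import Mathlib

set_option autoImplicit false

/-! Bounded forms over the field with two elements: definitions and statements for the project on
quaternionic structures with value groups of bounded index.

`U` is a subspace of the space `V` over `ZMod 2`, `β : U × V → K` is bilinear, symmetric on `U`,
and satisfies the linkage property. `r` is the dimension of `K`, always `t = 3 r + 1`, and
`c` is the codimension of `U` in `V`. -/

namespace Pool.Agent.Y920.QB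

open Module

section defs

variable {V K : Type} [AddCommGroup V] [Module (ZMod 2) V] [AddCommGroup K] [Module (ZMod 2) K]
  {U : Submodule (ZMod 2) V}

/-- symmetric on `U`, nondegenerate on the left, linkage -/
structure Lin (β : U →ₗ[ZMod 2] V →ₗ[ZMod 2] K) : Prop where
  symm : ∀ u v : U, β u v = β v u
  inj : ∀ u : U, (∀ x : V, β u x = 0) → u = 0
  link : ∀ (u w : U) (α : K), (∃ x : V, β u x = α) → (∃ y : V, β (u + w) y = α) →
    ∃ z : V, β w z = 0 ∧ β u z = α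

/-- the vectors all whose values lie in `E` -/
def UE (β : U →ₗ[ZMod 2] V →ₗ[ZMod 2] K) (E : Submodule (ZMod 2) K) : Submodule (ZMod 2) U where
  carrier := {u | ∀ x : V, β u x ∈ E}
  add_mem' := by
    intro a b ha hb x
    rw [map_add, LinearMap.add_apply]
    exact E.add_mem (ha x) (hb x)
  zero_mem' := by
    intro x
    rw [map_zero, LinearMap.zero_apply]
    exact E.zero_mem
  smul_mem' := by
    intro c a ha x
    rw [map_smul, LinearMap.smul_apply]
    exact E.smul_mem c (ha x)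

/-- the dimension of `UE β E` -/
noncomputable def ee (β : U →ₗ[ZMod 2] V →ₗ[ZMod 2] K) (E : Submodule (ZMod 2) K) : ℕ :=
  finrank (ZMod 2) (UE β E)

/-- `E` is `t`-ample: for every proper subspace `E'` of `E` the space `UE β E'` has codimension at
least `t` in `UE β E` -/
def Amp (β : U →ₗ[ZMod 2] V →ₗ[ZMod 2] K) (t : ℕ) (E : Submodule (ZMod 2) K) : Prop :=
  ∀ E' : Submodule (ZMod 2) K, E' < E → ee β E' + t ≤ ee β E

/-- the largest `t`-ample subspace of `E` -/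
def SS (β : U →ₗ[ZMod 2] V →ₗ[ZMod 2] K) (t : ℕ) (E : Submodule (ZMod 2) K) :
    Submodule (ZMod 2) K :=
  sSup {A : Submodule (ZMod 2) K | A ≤ E ∧ Amp β t A}

/-- the maximal proper `t`-ample subspaces of `K` -/
def Coat (β : U →ₗ[ZMod 2] V →ₗ[ZMod 2] K) (t : ℕ) (C : Submodule (ZMod 2) K) : Prop :=
  Amp β t C ∧ C ≠ ⊤ ∧ ∀ A : Submodule (ZMod 2) K, Amp β t A → C ≤ A → A ≠ ⊤ → A = C

end defs

/-- the standard hypotheses: `t = 3 r + 1`, and `K` is `T`-ample for a large `T` -/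
def Std {V K : Type} [AddCommGroup V] [Module (ZMod 2) V] [AddCommGroup K] [Module (ZMod 2) K]
    {U : Submodule (ZMod 2) V} (β : U →ₗ[ZMod 2] V →ₗ[ZMod 2] K) (t T : ℕ) : Prop :=
  t = 3 * finrank (ZMod 2) K + 1 ∧ Amp β T ⊤ ∧
    finrank (ZMod 2) V + 3 * t * finrank (ZMod 2) K + finrank (ZMod 2) K + 2 ≤
      finrank (ZMod 2) U + T

/-- ample subspaces -/
def P_AMP : Prop := ∀ (V K : Type) [AddCommGroup V] [Module (ZMod 2) V] [Finite V]
    [AddCommGroup K] [Module (ZMod 2) K] [Finite K] (U : Submodule (ZMod 2) V)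
    (β : U →ₗ[ZMod 2] V →ₗ[ZMod 2] K) (t : ℕ),
    (∀ A A' : Submodule (ZMod 2) K, Amp β t A → Amp β t A' → Amp β t (A ⊔ A')) ∧
    (∀ E : Submodule (ZMod 2) K, Amp β t (SS β t E) ∧ SS β t E ≤ E ∧
      ee β E ≤ ee β (SS β t E) + t * finrank (ZMod 2) K)

def S_AMP : Prop := P_AMP

/-- realization and distributivity -/
def P_DIST : Prop := ∀ (V K : Type) [AddCommGroup V] [Module (ZMod 2) V] [Finite V]
    [AddCommGroup K] [Module (ZMod 2) K] [Finite K] (U : Submodule (ZMod 2) V)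
    (β : U →ₗ[ZMod 2] V →ₗ[ZMod 2] K) (t : ℕ), Lin β →
    3 * finrank (ZMod 2) K + 1 ≤ t → ∀ M : Submodule (ZMod 2) K, Amp β t M →
      (∃ u : U, LinearMap.range (β u) = M) ∧
      ∀ u u' : U, (M ⊔ LinearMap.range (β u)) ⊓ (M ⊔ LinearMap.range (β u')) ≤
        M ⊔ (LinearMap.range (β u) ⊓ LinearMap.range (β u'))

def S_DIST : Prop := P_DIST

/-- reduction -/
def P_RED : Prop := ∀ (V K : Type) [AddCommGroup V] [Module (ZMod 2) V] [Finite V]
    [AddCommGroup K] [Module (ZMod 2) K] [Finite K] (U : Submodule (ZMod 2) V)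
    (β : U →ₗ[ZMod 2] V →ₗ[ZMod 2] K) (t : ℕ), Lin β →
    3 * finrank (ZMod 2) K + 1 ≤ t → ∀ κ κ' : Module.Dual (ZMod 2) K,
      SS β t (LinearMap.ker κ) ⊔ SS β t (LinearMap.ker κ') = ⊤ →
      SS β t (LinearMap.ker (κ + κ')) ≤ SS β t (LinearMap.ker κ) ⊓ SS β t (LinearMap.ker κ')

def S_RED : Prop := P_AMP → P_DIST → P_RED

/-- a consequence of linkage -/
def P_LINK : Prop := ∀ (V K : Type) [AddCommGroup V] [Module (ZMod 2) V] [Finite V]
    [AddCommGroup K] [Module (ZMod 2) K] [Finite K] (U : Submodule (ZMod 2) V)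
    (β : U →ₗ[ZMod 2] V →ₗ[ZMod 2] K), Lin β →
    ∀ (κ κ' : Module.Dual (ZMod 2) K) (u v : U), LinearMap.range (β u) = ⊤ →
      (∀ x : V, κ (β u x) = κ' (β v x)) → ∀ x : V, κ (β v x) = κ' (β v x)

def S_LINK : Prop := P_LINK

/-- dimension count -/
def P_CNT : Prop := ∀ (V K : Type) [AddCommGroup V] [Module (ZMod 2) V] [Finite V]
    [AddCommGroup K] [Module (ZMod 2) K] [Finite K] (U : Submodule (ZMod 2) V)
    (β : U →ₗ[ZMod 2] V →ₗ[ZMod 2] K), Lin β →
    ∀ κ κ' : Module.Dual (ZMod 2) K, ∃ Y : Submodule (ZMod 2) U,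
      (∀ u : U, u ∈ Y ↔ ∃ v : U, ∀ x : V, κ (β u x) = κ' (β v x)) ∧
      finrank (ZMod 2) U + finrank (ZMod 2) U + ee β (LinearMap.ker κ ⊓ LinearMap.ker κ') ≤
        finrank (ZMod 2) Y + ee β (LinearMap.ker κ') + finrank (ZMod 2) V

def S_CNT : Prop := P_CNT

/-- generic vectors -/
def P_GEN : Prop := ∀ (V K : Type) [AddCommGroup V] [Module (ZMod 2) V] [Finite V]
    [AddCommGroup K] [Module (ZMod 2) K] [Finite K] (U : Submodule (ZMod 2) V)
    (β : U →ₗ[ZMod 2] V →ₗ[ZMod 2] K) (T d : ℕ), Amp β T ⊤ →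
    d + finrank (ZMod 2) K + 1 ≤ T → ∀ Y W : Submodule (ZMod 2) U,
      (∀ u ∈ Y, LinearMap.range (β u) = ⊤ → u ∈ W) →
      finrank (ZMod 2) U ≤ finrank (ZMod 2) Y + d →
      finrank (ZMod 2) U ≤ finrank (ZMod 2) W + d + 1

def S_GEN : Prop := P_GEN

/-- sums of two subspaces -/
def P_SUM : Prop := ∀ (V K : Type) [AddCommGroup V] [Module (ZMod 2) V] [Finite V]
    [AddCommGroup K] [Module (ZMod 2) K] [Finite K] (U : Submodule (ZMod 2) V)
    (β : U →ₗ[ZMod 2] V →ₗ[ZMod 2] K) (T d : ℕ), Lin β →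
    Amp β T ⊤ → d + finrank (ZMod 2) K + 1 ≤ T → ∀ κ κ' : Module.Dual (ZMod 2) K,
      ee β (LinearMap.ker κ') + finrank (ZMod 2) V ≤
        ee β (LinearMap.ker κ ⊓ LinearMap.ker κ') + finrank (ZMod 2) U + d →
      finrank (ZMod 2) U ≤
        finrank (ZMod 2) ↥(UE β (LinearMap.ker κ) ⊔ UE β (LinearMap.ker (κ + κ'))) + d + 1

def S_SUM : Prop := P_LINK → P_CNT → P_GEN → P_SUM

/-- maximal proper ample subspaces are hyperplanes -/
def P_COAT : Prop := ∀ (V K : Type) [AddCommGroup V] [Module (ZMod 2) V] [Finite V]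
    [AddCommGroup K] [Module (ZMod 2) K] [Finite K] (U : Submodule (ZMod 2) V)
    (β : U →ₗ[ZMod 2] V →ₗ[ZMod 2] K) (t T : ℕ), Lin β → Std β t T →
    ∀ C : Submodule (ZMod 2) K, Coat β t C →
      ∃ κ : Module.Dual (ZMod 2) K, κ ≠ 0 ∧ C = LinearMap.ker κ

def S_COAT : Prop := P_AMP → P_SUM → P_COAT

/-- dichotomy -/
def P_DICH : Prop := ∀ (V K : Type) [AddCommGroup V] [Module (ZMod 2) V] [Finite V]
    [AddCommGroup K] [Module (ZMod 2) K] [Finite K] (U : Submodule (ZMod 2) V)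
    (β : U →ₗ[ZMod 2] V →ₗ[ZMod 2] K)
    (t T : ℕ), Lin β → Std β t T → ∀ κ : Module.Dual (ZMod 2) K, κ ≠ 0 →
      Coat β t (LinearMap.ker κ) → ∀ b : Module.Dual (ZMod 2) K,
        ¬ (SS β t (LinearMap.ker b) ≤ LinearMap.ker κ ∧
          SS β t (LinearMap.ker (b + κ)) ≤ LinearMap.ker κ) ∧
        (¬ SS β t (LinearMap.ker b) ≤ LinearMap.ker κ →
          SS β t (LinearMap.ker (b + κ)) ≤ LinearMap.ker κ ⊓ SS β t (LinearMap.ker b))

def S_DICH : Prop := P_AMP → P_RED → P_SUM → P_DICH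

/-- the functionals of the maximal proper ample subspaces span; a functional without ample kernel -/
def P_SPAN : Prop := ∀ (V K : Type) [AddCommGroup V] [Module (ZMod 2) V] [Finite V]
    [AddCommGroup K] [Module (ZMod 2) K] [Finite K] (U : Submodule (ZMod 2) V)
    (β : U →ₗ[ZMod 2] V →ₗ[ZMod 2] K) (t T : ℕ), Lin β → Std β t T →
    Submodule.span (ZMod 2) {κ : Module.Dual (ZMod 2) K | κ ≠ 0 ∧ Coat β t (LinearMap.ker κ)} = ⊤ ∧
    (0 < finrank (ZMod 2) K → ∃ κ : Module.Dual (ZMod 2) K, κ ≠ 0 ∧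
      SS β t (LinearMap.ker κ) = ⊥)

def S_SPAN : Prop := P_AMP → P_COAT → P_DICH → P_SPAN

/-- ample lines -/
def P_LINES : Prop := ∀ (V K : Type) [AddCommGroup V] [Module (ZMod 2) V] [Finite V]
    [AddCommGroup K] [Module (ZMod 2) K] [Finite K] (U : Submodule (ZMod 2) V)
    (β : U →ₗ[ZMod 2] V →ₗ[ZMod 2] K) (t T : ℕ), Lin β → Std β t T →
    ∃ θ : Fin (finrank (ZMod 2) K) → K, LinearIndependent (ZMod 2) θ ∧
      finrank (ZMod 2) U + finrank (ZMod 2) K * finrank (ZMod 2) U ≤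
        ∑ i, ee β (Submodule.span (ZMod 2) {θ i}) + finrank (ZMod 2) K *
          (finrank (ZMod 2) V + 2 * t * finrank (ZMod 2) K + 1)

def S_LINES : Prop := P_AMP → P_SUM → P_COAT → P_DICH → P_SPAN → P_LINES

/-- the linear theorem -/
def P_FIN : Prop := ∀ (V K : Type) [AddCommGroup V] [Module (ZMod 2) V] [Finite V]
    [AddCommGroup K] [Module (ZMod 2) K] [Finite K] (U : Submodule (ZMod 2) V)
    (β : U →ₗ[ZMod 2] V →ₗ[ZMod 2] K) (c : ℕ), Lin β →
    finrank (ZMod 2) V = finrank (ZMod 2) U + c →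
    ∃ (n : ℕ) (θ : Fin n → K), n ≤ finrank (ZMod 2) K ∧ LinearIndependent (ZMod 2) θ ∧
      finrank (ZMod 2) V ≤ ∑ i, ee β (Submodule.span (ZMod 2) {θ i}) +
        4 ^ finrank (ZMod 2) K * (c + 15 * finrank (ZMod 2) K ^ 2)

def S_FIN : Prop := P_LINES → P_FIN

/-- nondegenerate parts of the lines and their orthogonal complement -/
def P_NDG : Prop := ∀ (V K : Type) [AddCommGroup V] [Module (ZMod 2) V] [Finite V]
    [AddCommGroup K] [Module (ZMod 2) K] [Finite K] (U : Submodule (ZMod 2) V)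
    (β : U →ₗ[ZMod 2] V →ₗ[ZMod 2] K) (D : ℕ),
    Lin β → ∀ (n : ℕ) (θ : Fin n → K), LinearIndependent (ZMod 2) θ →
    finrank (ZMod 2) V ≤ ∑ i, ee β (Submodule.span (ZMod 2) {θ i}) + D →
    ∃ L : Fin n → Submodule (ZMod 2) U,
      (∀ i, L i ≤ UE β (Submodule.span (ZMod 2) {θ i})) ∧
      (∀ i, ∀ u ∈ L i, u ≠ 0 → ∃ v ∈ L i, β u v ≠ 0) ∧
      (∀ x : V, ∃! p : Fin n → U, (∀ i, p i ∈ L i) ∧
        ∀ i, ∀ u ∈ L i, β u (x - ∑ j, (p j : V)) = 0) ∧
      finrank (ZMod 2) V ≤ ∑ i, finrank (ZMod 2) (L i) + (n + 1) * D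

def S_NDG : Prop := P_NDG

end Pool.Agent.Y920.QB
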