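import Mathlib
import Pool.Agent.H315R3.ETC.Defs
import Pool.Agent.Y920.QB.Lin

set_option autoImplicit false

/-! Quaternionic structures with value groups of bounded index: definitions and statements. -/

namespace Pool.Agent.Y920.QB

open Pool.Agent.H315R3.ETC Module

/-- all values of `u` are values of `a`, with the same addition -/
def SubVal (S : QData) (u a : S.G) : Prop :=
  (∀ x, ∃ y, S.q u x = S.q a y) ∧
  ∀ x x' y y', S.q u x = S.q a y → S.q u x' = S.q a y' → S.q u (x * x') = S.q a (y * y')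

/-- `u` and `a` are independent: all pairs of values are attained -/
def IndVal (S : QData) (u a : S.G) : Prop :=
  ∀ x y, ∃ z, S.q u z = S.q u x ∧ S.q a z = S.q a y

/-- a subgroup of bounded index whose elements have values in one group of quaternions -/
def P_A1 : Prop := ∀ S : QData, IsQuat S → Finite S.G → ∀ k : ℕ,
  (∀ a, (Set.range (S.q a)).ncard ≤ 2 ^ k) →
  ∃ (U : Subgroup S.G) (a : S.G), (∀ u ∈ U, SubVal S u a) ∧
    (∀ x, ∃ w ∈ U, SubVal S a w ∧ IndVal S w x) ∧ U.index ≤ 2 ^ (2 * k ^ 3 + k ^ 2)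

/-- the linear data of such a subgroup -/
def P_A2 : Prop := ∀ S : QData, IsQuat S → Finite S.G → ∀ (U : Subgroup S.G) (a : S.G),
  (∀ u ∈ U, SubVal S u a) → (∀ x, ∃ w ∈ U, SubVal S a w ∧ IndVal S w x) →
  ∃ (V K : Type) (_ : AddCommGroup V) (_ : Module (ZMod 2) V) (_ : Finite V)
    (_ : AddCommGroup K) (_ : Module (ZMod 2) K) (_ : Finite K)
    (W : Submodule (ZMod 2) V) (β : W →ₗ[ZMod 2] V →ₗ[ZMod 2] K) (φ : S.G → V) (ψ : K → S.Q),
    Lin β ∧ Function.Surjective φ ∧ (∀ x y, φ (x * y) = φ x + φ y) ∧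
    (∀ x, φ x = 0 ↔ ∀ y, S.q x y = S.zero) ∧ (∀ x, φ x ∈ W ↔ ∃ u ∈ U, φ x = φ u) ∧
    Function.Injective ψ ∧ ψ 0 = S.zero ∧
    (∀ (x y : S.G) (h : φ x ∈ W), ψ (β ⟨φ x, h⟩ (φ y)) = S.q x y) ∧
    Nat.card K = (Set.range (S.q a)).ncard ∧ Nat.card V ≤ Nat.card W * U.index

/-- `S` is glued from the structure on `B` and forms `lam i` on the groups `L i`: `G` is the direct
product of `B` and of the `L i`, which are orthogonal to `B`; the values on the product of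
the `L i` are given by nondegenerate forms `lam i` on the `L i` -/
structure Glue (S : QData) (n : ℕ) (L : Fin n → Subgroup S.G) (B : Subgroup S.G)
    (lam : Fin n → S.G → S.G → ZMod 2) (ψ : (Fin n → ZMod 2) → S.Q) : Prop where
  inj : Function.Injective ψ
  zero : ψ 0 = S.zero
  val : ∀ l l' : Fin n → S.G, (∀ i, l i ∈ L i) → (∀ i, l' i ∈ L i) →
    S.q (∏ i, l i) (∏ i, l' i) = ψ (fun i => lam i (l i) (l' i))
  nondeg : ∀ i, ∀ a ∈ L i, a ≠ 1 → ∃ b ∈ L i, lam i a b ≠ 0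
  mem : ∀ x, x ∈ B ↔ ∀ i, ∀ a ∈ L i, S.q a x = S.zero
  dec : ∀ x, ∃! p : Fin n → S.G, (∀ i, p i ∈ L i) ∧ x * ∏ i, p i ∈ B

/-- the number of elements of the radical -/
noncomputable def radCard (S : QData) : ℕ := Nat.card {r : S.G // ∀ b, S.q r b = S.zero}

/-- the structure theorem -/
def P_STR : Prop := ∀ S : QData, IsQuat S → Finite S.G → ∀ k : ℕ,
  (∀ a, (Set.range (S.q a)).ncard ≤ 2 ^ k) →
  ∃ (n : ℕ) (L : Fin n → Subgroup S.G) (B : Subgroup S.G) (lam : Fin n → S.G → S.G → ZMod 2)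
    (ψ : (Fin n → ZMod 2) → S.Q), n ≤ k ∧ Glue S n L B lam ψ ∧
    Nat.card B ≤ 2 ^ (16 * 16 ^ k) * radCard S

def S_A1 : Prop := P_A1
def S_A2 : Prop := P_A2
def S_STR : Prop := P_A1 → P_A2 → P_FIN → P_NDG → P_STR

/-- transfer from small structures -/
def P_TRANS : Prop := ∀ S : QData, IsQuat S → Finite S.G → ∀ (k n M : ℕ)
  (L : Fin n → Subgroup S.G) (B : Subgroup S.G) (lam : Fin n → S.G → S.G → ZMod 2)
  (ψ : (Fin n → ZMod 2) → S.Q), n ≤ k → Glue S n L B lam ψ →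
  (∀ a, (Set.range (S.q a)).ncard ≤ 2 ^ k) → Nat.card B ≤ M * radCard S →
  (∀ T : QData, IsQuat T → Finite T.G → Nat.card T.G ≤ 2 * 4 ^ k * M →
    (∀ a : T.G, (Set.range (T.q a)).ncard ≤ 2 ^ k) → Elem T) → Elem S

def S_TRANS : Prop := P_TRANS

end Pool.Agent.Y920.QB
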