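import Mathlib
import Pool.Agent.TH673.VG.CritDefs
import Pool.Agent.Y920.QB.Qs

set_option autoImplicit false

/-! Substructures cut out of a glued structure: definitions and statements. -/

namespace Pool.Agent.Y920.QB

open Pool.Agent.H315R3.ETC Pool.Agent.TH673.VG

/-- `T` is a substructure of `S`, embedded by `ι` -/
structure Emb (T S : QData) (ι : T.G →* S.G) : Prop where
  inj : Function.Injective ι
  neg : ι T.neg = S.neg
  zero : ∀ a b, T.q a b = T.zero ↔ S.q (ι a) (ι b) = S.zero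
  eq : ∀ a b c d, T.q a b = T.q c d ↔ S.q (ι a) (ι b) = S.q (ι c) (ι d)

/-- `T` is a substructure of `S`, and `S` is obtained from `T` by enlarging the subgroup generated
by elements with value groups of index at most two -/
def Cut (S T : QData) : Prop := ∃ (ι : T.G →* S.G) (P : Subgroup S.G), Emb T S ι ∧
  (∀ x : S.G, ∃ t : T.G, x * ι t ∈ P) ∧
  P ≤ Subgroup.closure {a : S.G | IndexTwo S a} ∧
  (∀ t : T.G, ι t ∈ P → t ∈ Subgroup.closure {a : T.G | IndexTwo T a}) ∧
  ∀ a : S.G, ∃ a' : T.G, a * ι a' ∈ P ∧ ∀ v : S.G, S.q a v = S.zero →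
    ∃ v' : T.G, v * ι v' ∈ P ∧ T.q a' v' = T.zero

/-- a small substructure -/
def P_CUT : Prop := ∀ S : QData, IsQuat S → Finite S.G → ∀ (n M : ℕ)
  (L : Fin n → Subgroup S.G) (B : Subgroup S.G) (lam : Fin n → S.G → S.G → ZMod 2)
  (ψ : (Fin n → ZMod 2) → S.Q), Glue S n L B lam ψ → Nat.card B ≤ M * radCard S →
  ∃ T : QData, IsQuat T ∧ Finite T.G ∧ Nat.card T.G ≤ 2 * 4 ^ n * M ∧ Cut S T

/-- the substructure decides whether `S` is of elementary type -/
def P_UD : Prop := ∀ S T : QData, IsQuat S → IsQuat T → Finite S.G → Finite T.G → Cut S T →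
  (Elem S ↔ Elem T)

def S_CUT : Prop := P_CUT
def S_UD : Prop := P_UD

end Pool.Agent.Y920.QB
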