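import Pool.Agent.Y920.QB.LinAll
import Pool.Agent.Y920.QB.Qs2
import Pool.Agent.Y455.QB.AOne
import Pool.Agent.Y362.QB.A2
import Pool.Agent.Y978.QB.Str

set_option autoImplicit false

/-! Structures with value groups of bounded index: the structure theorem and the substructure. -/

namespace Pool.Agent.Y920.QB

open Pool.Agent.H315R3.ETC Pool.Agent.TH673.VG

theorem p_STR : P_STR := Pool.Agent.Y978.QB.t_STR Pool.Agent.Y455.QB.t_A1 Pool.Agent.Y362.QB.t_A2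
  p_FIN p_NDG

/-- the number of quaternions `q(a,x)`, `x ∈ G` -/
noncomputable def idx (S : QData) (a : S.G) : ℕ := (Set.range (S.q a)).ncard

section

variable {S : QData} (h : IsQuat S) [Finite S.G]

include h

lemma idx_pos (a : S.G) : 1 ≤ idx S a := by
  obtain ⟨n, hn⟩ := Pool.Agent.Y455.QB.pow_two_val h a
  unfold idx
  rw [hn]
  exact Nat.one_le_two_pow

lemma idx_le {N : ℕ} (hN : ∀ a : S.G, idx S a ≤ N) :
    (∀ a : S.G, (Set.range (S.q a)).ncard ≤ 2 ^ Nat.log 2 N) ∧ 2 ^ Nat.log 2 N ≤ N := by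
  have hN0 : N ≠ 0 := by
    have h1 := idx_pos h (1 : S.G)
    have h2 := hN 1
    omega
  refine ⟨fun a => ?_, Nat.pow_log_le_self 2 hN0⟩
  obtain ⟨n, hn⟩ := Pool.Agent.Y455.QB.pow_two_val h a
  have h1 := hN a
  unfold idx at h1
  rw [hn] at h1 ⊢
  exact Nat.pow_le_pow_right (by norm_num) (Nat.le_log_of_pow_le (by norm_num) h1)

/-- the structure theorem -/
theorem structure_thm {N : ℕ} (hN : ∀ a : S.G, idx S a ≤ N) :
    ∃ (n : ℕ) (L : Fin n → Subgroup S.G) (B : Subgroup S.G) (lam : Fin n → S.G → S.G → ZMod 2)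
      (ψ : (Fin n → ZMod 2) → S.Q), 2 ^ n ≤ N ∧ Glue S n L B lam ψ ∧
      Nat.card B ≤ 2 ^ (16 * N ^ 4) * radCard S := by
  obtain ⟨h1, h2⟩ := idx_le h hN
  obtain ⟨n, L, B, lam, ψ, hn, hG, hB⟩ := p_STR S h inferInstance _ h1
  refine ⟨n, L, B, lam, ψ, (Nat.pow_le_pow_right (by norm_num) hn).trans h2, hG, hB.trans ?_⟩
  refine Nat.mul_le_mul_right _ (Nat.pow_le_pow_right (by norm_num) ?_)
  have h3 : 16 ^ Nat.log 2 N = (2 ^ Nat.log 2 N) ^ 4 := by
    rw [← pow_mul, mul_comm, pow_mul]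
    norm_num
  rw [h3]
  exact Nat.mul_le_mul_left _ (Nat.pow_le_pow_left h2 4)

/-- the substructure -/
theorem substructure (hcut : P_CUT) (hud : P_UD) {N : ℕ} (hN : ∀ a : S.G, idx S a ≤ N) :
    ∃ (T : QData) (ι : T.G →* S.G), IsQuat T ∧ Finite T.G ∧ Emb T S ι ∧
      Nat.card T.G ≤ 2 * N ^ 2 * 2 ^ (16 * N ^ 4) ∧ (Elem S ↔ Elem T) := by
  obtain ⟨n, L, B, lam, ψ, hn, hG, hB⟩ := structure_thm h hN
  obtain ⟨T, hT, hTf, hTc, hC⟩ := hcut S h inferInstance n _ L B lam ψ hG hB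
  have hiff := hud S T h hT inferInstance hTf hC
  obtain ⟨ι, P, hE, -⟩ := hC
  refine ⟨T, ι, hT, hTf, hE, hTc.trans ?_, hiff⟩
  refine Nat.mul_le_mul_right _ (Nat.mul_le_mul_left _ ?_)
  have h3 : 4 ^ n = (2 ^ n) ^ 2 := by
    rw [← pow_mul, mul_comm, pow_mul]
    norm_num
  rw [h3]
  exact Nat.pow_le_pow_left hn 2

end

/-- substructures have at most as many quaternions `q(a,x)` -/
lemma idx_emb {T S : QData} {ι : T.G →* S.G} (hE : Emb T S ι) [Finite S.G] (a : T.G) :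
    idx T a ≤ idx S (ι a) := by
  classical
  unfold idx
  have hfin : (Set.range (S.q (ι a))).Finite := Set.finite_range _
  have key : ∀ t ∈ Set.range (T.q a), ∃ s ∈ Set.range (S.q (ι a)), ∃ x, T.q a x = t ∧ S.q (ι a) (ι x) = s := by
    rintro t ⟨x, rfl⟩
    exact ⟨_, ⟨ι x, rfl⟩, x, rfl, rfl⟩
  haveI : Nonempty S.Q := ⟨S.zero⟩
  choose! f hf hf2 using key
  refine Set.ncard_le_ncard_of_injOn f hf ?_ hfin
  intro t ht t' ht' e
  obtain ⟨x, hx1, hx2⟩ := hf2 t ht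
  obtain ⟨x', hx1', hx2'⟩ := hf2 t' ht'
  rw [← hx1, ← hx1', hE.eq, hx2, hx2', e]

/-- substructures have at most as many quaternions -/
lemma quat_emb {T S : QData} {ι : T.G →* S.G} (hE : Emb T S ι) [Finite S.G] :
    {t : T.Q | ∃ a b, T.q a b = t}.ncard ≤ {t : S.Q | ∃ a b, S.q a b = t}.ncard := by
  classical
  have hfin : {t : S.Q | ∃ a b, S.q a b = t}.Finite := by
    have : {t : S.Q | ∃ a b, S.q a b = t} = Set.range (fun p : S.G × S.G => S.q p.1 p.2) := by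
      ext t
      constructor
      · rintro ⟨a, b, h⟩
        exact ⟨(a, b), h⟩
      · rintro ⟨p, h⟩
        exact ⟨p.1, p.2, h⟩
    rw [this]
    exact Set.finite_range _
  have key : ∀ t ∈ {t : T.Q | ∃ a b, T.q a b = t}, ∃ s ∈ {t : S.Q | ∃ a b, S.q a b = t},
      ∃ a b, T.q a b = t ∧ S.q (ι a) (ι b) = s := by
    rintro t ⟨a, b, rfl⟩
    exact ⟨_, ⟨ι a, ι b, rfl⟩, a, b, rfl, rfl⟩
  haveI : Nonempty S.Q := ⟨S.zero⟩
  choose! f hf hf2 using key
  refine Set.ncard_le_ncard_of_injOn f hf ?_ hfin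
  intro t ht t' ht' e
  obtain ⟨a, b, h1, h2⟩ := hf2 t ht
  obtain ⟨a', b', h1', h2'⟩ := hf2 t' ht'
  rw [← h1, ← h1', hE.eq, h2, h2', e]

/-- `q(a,x)` is a quaternion -/
lemma idx_le_quat {S : QData} [Finite S.G] (a : S.G) :
    idx S a ≤ {t : S.Q | ∃ a b, S.q a b = t}.ncard := by
  have hfin : {t : S.Q | ∃ a b, S.q a b = t}.Finite := by
    have : {t : S.Q | ∃ a b, S.q a b = t} = Set.range (fun p : S.G × S.G => S.q p.1 p.2) := by
      ext t
      constructor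
      · rintro ⟨a, b, h⟩
        exact ⟨(a, b), h⟩
      · rintro ⟨p, h⟩
        exact ⟨p.1, p.2, h⟩
    rw [this]
    exact Set.finite_range _
  refine Set.ncard_le_ncard ?_ hfin
  rintro t ⟨x, rfl⟩
  exact ⟨a, x, rfl⟩

end Pool.Agent.Y920.QB
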