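import Pool.Agent.Y920.QB.Core
import Pool.Agent.Y920.ETC.FieldR

set_option autoImplicit false

/-! Fields whose norm groups have bounded index. -/

namespace Pool.Agent.Y920.QB

open scoped Quaternion
open Pool.Agent.H315R3.ETC Pool.Agent.TH188.ET Pool.Agent.Y920.ETC

variable {F : Type} [Field F] {S : QData} {φ : Fˣ →* S.G}

lemma idx_eq (hS : IsQuat S) (hs : Function.Surjective φ)
    (h0 : S.q 1 1 = S.zero)
    (hq : ∀ a b c d : Fˣ, S.q (φ a) (φ b) = S.q (φ c) (φ d) ↔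
      Nonempty (ℍ[F,(a : F),0,(b : F)] ≃ₐ[F] ℍ[F,(c : F),0,(d : F)]))
    (h2 : (2 : F) ≠ 0) (a : Fˣ) : idx S (φ a) = (nG a).index := by
  unfold idx
  rw [Pool.Agent.Y455.QB.card_val hS]
  have : (Pool.Agent.Y455.QB.DD hS (φ a)).comap φ = nG a := by
    ext b
    rw [Subgroup.mem_comap, Pool.Agent.Y455.QB.mem_DD, q_zero h0 hq h2]
    rfl
  rw [← this, Subgroup.index_comap_of_surjective _ hs]

end Pool.Agent.Y920.QB
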