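import Pool.Agent.Y920.QB.Lin
import Pool.Agent.Y43.QB.Amp
import Pool.Agent.Y388.QB.Dist
import Pool.Agent.Y388.QB.Coat
import Pool.Agent.Y467.QB.RedDich
import Pool.Agent.Y467.QB.Lines
import Pool.Agent.Y287.QB.Lnk
import Pool.Agent.Y50.QB.Span
import Pool.Agent.Y908.QB.Fin
import Pool.Agent.Y438.QB.Ndg

set_option autoImplicit false

/-! The linear theorem, assembled. -/

namespace Pool.Agent.Y920.QB

theorem p_AMP : P_AMP := Pool.Agent.Y43.QB.t_AMP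
theorem p_DIST : P_DIST := Pool.Agent.Y388.QB.t_DIST
theorem p_RED : P_RED := Pool.Agent.Y467.QB.t_RED p_AMP p_DIST
theorem p_SUM : P_SUM := Pool.Agent.Y287.QB.t_SUM Pool.Agent.Y287.QB.t_LINK
  Pool.Agent.Y287.QB.t_CNT Pool.Agent.Y287.QB.t_GEN
theorem p_COAT : P_COAT := Pool.Agent.Y388.QB.t_COAT p_AMP p_SUM
theorem p_DICH : P_DICH := Pool.Agent.Y467.QB.t_DICH p_AMP p_RED p_SUM
theorem p_SPAN : P_SPAN := Pool.Agent.Y50.QB.t_SPAN p_AMP p_COAT p_DICH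
theorem p_LINES : P_LINES := Pool.Agent.Y467.QB.t_LINES p_AMP p_SUM p_COAT p_DICH p_SPAN
theorem p_FIN : P_FIN := Pool.Agent.Y908.QBF.t_FIN p_LINES
theorem p_NDG : P_NDG := Pool.Agent.Y438.QB.t_NDG

end Pool.Agent.Y920.QB
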